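import Pool.Agent.helper43.Tukey.Defs

namespace Pool.Agent.helper43.Tukey

open Cardinal Set

lemma infinite_of_mem {U : Ultrafilter ℕ} (hU : Nonprincipal U) {s : Set ℕ} (hs : s ∈ U) :
    s.Infinite := by
  intro hf
  obtain ⟨n, hn, hpure⟩ := Ultrafilter.eq_pure_of_finite_mem hf hs
  exact hU n hpure

/-- there is a base of cardinality `character U` -/
lemma exists_base (U : Ultrafilter ℕ) :
    ∃ B : Set (Set ℕ), IsBase U B ∧ Cardinal.mk B = character U := by
  have hne : {c | ∃ B : Set (Set ℕ), IsBase U B ∧ Cardinal.mk B = c}.Nonempty :=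
    ⟨_, {s | s ∈ U}, ⟨fun b hb => hb, fun s hs => ⟨s, hs, subset_rfl⟩⟩, rfl⟩
  exact csInf_mem hne

lemma character_le {U : Ultrafilter ℕ} {B : Set (Set ℕ)} (hB : IsBase U B) :
    character U ≤ Cardinal.mk B :=
  csInf_le' ⟨B, hB, rfl⟩

/-- indexed version -/
lemma character_le_of_family {U : Ultrafilter ℕ} {I : Type} (S : I → Set ℕ)
    (h2 : ∀ s ∈ U, ∃ i, S i ∈ U ∧ S i ⊆ s) : character U ≤ Cardinal.mk I := by
  have hB : IsBase U (Set.range (fun i : {i // S i ∈ U} => S i.1)) := by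
    constructor
    · rintro b ⟨i, rfl⟩
      exact i.2
    · intro s hs
      obtain ⟨i, hi, his⟩ := h2 s hs
      exact ⟨S i, ⟨⟨i, hi⟩, rfl⟩, his⟩
  calc character U ≤ _ := character_le hB
    _ ≤ Cardinal.mk {i // S i ∈ U} := Cardinal.mk_range_le
    _ ≤ Cardinal.mk I := Cardinal.mk_subtype_le _

/-- an indexed base, by any type of cardinality `character U` -/
lemma exists_indexed_base (U : Ultrafilter ℕ) :
    ∃ D : (character U).out → Set ℕ, (∀ i, D i ∈ U) ∧ ∀ s ∈ U, ∃ i, D i ⊆ s := by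
  obtain ⟨B, hB, hc⟩ := exists_base U
  have : Nonempty ((character U).out ≃ B) := by
    rw [← Cardinal.eq, Cardinal.mk_out, hc]
  obtain ⟨e⟩ := this
  refine ⟨fun i => (e i).1, fun i => hB.1 _ (e i).2, fun s hs => ?_⟩
  obtain ⟨b, hb, hbs⟩ := hB.2 s hs
  exact ⟨e.symm ⟨b, hb⟩, by simpa using hbs⟩

/-- the character of a nonprincipal ultrafilter is infinite -/
lemma aleph0_le_character {U : Ultrafilter ℕ} (hU : Nonprincipal U) : ℵ₀ ≤ character U := by
  by_contra hlt
  push Not at hlt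
  obtain ⟨B, hB, hc⟩ := exists_base U
  have hfin : B.Finite := by
    rw [← Cardinal.lt_aleph0_iff_set_finite, hc]; exact hlt
  have hI : ⋂₀ B ∈ U := by
    have := (Filter.sInter_mem (f := (U : Filter ℕ)) hfin).2 (fun b hb => hB.1 b hb)
    exact this
  obtain ⟨n, hn⟩ := (infinite_of_mem hU hI).nonempty
  have h1 : ({n} : Set ℕ)ᶜ ∈ U := by
    rw [Ultrafilter.compl_mem_iff_notMem]
    intro h
    exact infinite_of_mem hU h (Set.finite_singleton n)
  obtain ⟨b, hb, hbs⟩ := hB.2 _ h1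
  exact hbs (hn b hb) rfl

/-- Tukey equivalence with `Finset ι` gives a top family indexed by a set of cardinality at least
the character. -/
lemma exists_top_family {U : Ultrafilter ℕ} (hU : Nonprincipal U) {ι : Type}
    (h : TukeyEquiv (Dir U) (Finset ι)) :
    character U ≤ Cardinal.mk ι ∧
      ∃ A : ι → Set ℕ, (∀ i, A i ∈ U) ∧ ∀ B ∈ U, {i | B ⊆ A i}.Finite := by
  classical
  obtain ⟨⟨g, hg⟩, ⟨f, hf⟩⟩ := h
  have hbound : ∀ F : Finset ι, ∃ b : Dir U, ∀ a : Dir U, g a ≤ F → a ≤ b := by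
    intro F
    by_contra hcon
    have hX : ¬ BddAbove {a : Dir U | g a ≤ F} := by
      rintro ⟨b, hb⟩
      exact hcon ⟨b, fun a ha => hb ha⟩
    apply hg _ hX
    refine ⟨F, ?_⟩
    rintro _ ⟨a, ha, rfl⟩
    exact ha
  choose b hb using hbound
  have hchar : character U ≤ Cardinal.mk (Finset ι) := by
    apply character_le_of_family (fun F => OrderDual.ofDual (b F).1)
    intro s hs
    refine ⟨g ⟨OrderDual.toDual s, hs⟩, (b _).2, ?_⟩
    exact hb (g ⟨OrderDual.toDual s, hs⟩) ⟨OrderDual.toDual s, hs⟩ le_rfl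
  have hinf : Infinite ι := by
    by_contra hfin
    rw [not_infinite_iff_finite] at hfin
    have : Cardinal.mk (Finset ι) < ℵ₀ := by
      have : Finite (Finset ι) := inferInstance
      exact Cardinal.lt_aleph0_of_finite _
    exact absurd (aleph0_le_character hU) (not_le.2 (hchar.trans_lt this))
  refine ⟨?_, fun i => OrderDual.ofDual (f {i}).1, fun i => (f {i}).2, ?_⟩
  · rwa [Cardinal.mk_finset_of_infinite] at hchar
  · intro B hB
    by_contra hinfX
    have hX : ¬ BddAbove ((fun i : ι => ({i} : Finset ι)) '' {i | B ⊆ OrderDual.ofDual (f {i}).1}) := by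
      rintro ⟨F, hF⟩
      apply hinfX
      apply F.finite_toSet.subset
      intro i hi
      have := hF ⟨i, hi, rfl⟩
      simpa using this
    apply hf _ hX
    refine ⟨⟨OrderDual.toDual B, hB⟩, ?_⟩
    rintro _ ⟨_, ⟨i, hi, rfl⟩, rfl⟩
    exact hi

/-- top family indexed by any type of cardinality at most the character -/
lemma top_family_of_le (hyp : EveryFinsetType) {U : Ultrafilter ℕ} (hU : Nonprincipal U)
    {J : Type} (hJ : Cardinal.mk J ≤ character U) :
    ∃ A : J → Set ℕ, (∀ i, A i ∈ U) ∧ ∀ B ∈ U, {i | B ⊆ A i}.Finite := by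
  obtain ⟨ι, _, h⟩ := hyp U hU
  obtain ⟨hc, A, hA, hfin⟩ := exists_top_family hU h
  obtain ⟨e⟩ : Nonempty (J ↪ ι) := by
    rw [← Cardinal.le_def]; exact hJ.trans hc
  refine ⟨fun j => A (e j), fun j => hA _, fun B hB => ?_⟩
  exact (hfin B hB).preimage e.injective.injOn

end Pool.Agent.helper43.Tukey
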