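import Mathlib

/-!
# Tukey types of ultrafilters on the natural numbers: definitions
-/

namespace Pool.Agent.helper43.Tukey

/-- `D` is Tukey below `E`: some map `D → E` sends unbounded sets to unbounded sets. -/
def TukeyLE (D E : Type) [Preorder D] [Preorder E] : Prop :=
  ∃ g : D → E, ∀ X : Set D, ¬ BddAbove X → ¬ BddAbove (g '' X)

/-- Tukey equivalence. -/
def TukeyEquiv (D E : Type) [Preorder D] [Preorder E] : Prop :=
  TukeyLE D E ∧ TukeyLE E D

/-- The ultrafilter `U` as a directed set, ordered by reverse inclusion. -/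
abbrev Dir (U : Ultrafilter ℕ) : Type := {s : (Set ℕ)ᵒᵈ // OrderDual.ofDual s ∈ U}

/-- `U` is nonprincipal. -/
def Nonprincipal (U : Ultrafilter ℕ) : Prop := ∀ n : ℕ, U ≠ pure n

/-- `B` is a base of the ultrafilter `U`. -/
def IsBase (U : Ultrafilter ℕ) (B : Set (Set ℕ)) : Prop :=
  (∀ b ∈ B, b ∈ U) ∧ ∀ s ∈ U, ∃ b ∈ B, b ⊆ s

/-- The character of `U`: the least cardinality of a base. -/
noncomputable def character (U : Ultrafilter ℕ) : Cardinal.{0} :=
  sInf {c | ∃ B : Set (Set ℕ), IsBase U B ∧ Cardinal.mk B = c}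

/-- Every nonprincipal ultrafilter on the natural numbers is Tukey equivalent to
the finite subsets of some cardinal at most the continuum. -/
def EveryFinsetType : Prop :=
  ∀ U : Ultrafilter ℕ, Nonprincipal U →
    ∃ ι : Type, Cardinal.mk ι ≤ Cardinal.continuum ∧ TukeyEquiv (Dir U) (Finset ι)

end Pool.Agent.helper43.Tukey
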