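import Pool.Agent.helper43.Tukey.Sum

namespace Pool.Agent.helper43.Tukey

open Cardinal Set

/-- no strictly increasing sequence of characters -/
theorem not_strictMono (hyp : EveryFinsetType) (V : ℕ → Ultrafilter ℕ)
    (hV : ∀ n, Nonprincipal (V n)) : ¬ StrictMono (fun n => character (V n)) := by
  intro hmono
  have h1 := sum_lt_character_usum (hV 0) hV hmono
  have h2 : ∀ n, character (V n) ≤ Cardinal.sum (fun n => character (V n)) :=
    fun n => Cardinal.le_sum (fun n => character (V n)) n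
  exact absurd (character_usum_le hyp ((aleph0_le_character (hV 0)).trans (h2 0)) hV (h2 0) h2)
    (not_le.2 h1)

theorem finite_spectrum (hyp : EveryFinsetType) :
    {c : Cardinal.{0} | ∃ U : Ultrafilter ℕ, Nonprincipal U ∧ character U = c}.Finite := by
  by_contra hinf
  have hinf' : {c : Cardinal.{0} | ∃ U : Ultrafilter ℕ, Nonprincipal U ∧ character U = c}.Infinite :=
    hinf
  let f := hinf'.natEmbedding
  obtain ⟨g, hg⟩ := exists_increasing_or_nonincreasing_subseq (fun a b : Cardinal.{0} => a < b)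
    (fun n => (f n).1)
  have hfinj : Function.Injective (fun n => (f n).1) := fun a b hab =>
    f.injective (Subtype.ext hab)
  rcases hg with hg | hg
  · have hex : ∀ n, ∃ U : Ultrafilter ℕ, Nonprincipal U ∧ character U = (f (g n)).1 :=
      fun n => (f (g n)).2
    choose V hV1 hV2 using hex
    apply not_strictMono hyp V hV1
    intro m n hmn
    show character (V m) < character (V n)
    rw [hV2, hV2]
    exact hg m n hmn
  · have hanti : StrictAnti (fun n => (f (g n)).1) := by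
      intro m n hmn
      have h1 := hg m n hmn
      rcases lt_or_eq_of_le (not_lt.1 h1) with h | h
      · exact h
      · exact absurd (g.injective (hfinj h)) (by omega)
    exact (RelEmbedding.not_wellFounded (RelEmbedding.ofMonotone _
      (fun m n (hmn : m > n) => hanti hmn)) : ¬ WellFounded (fun a b : Cardinal.{0} => a < b))
      Cardinal.lt_wf

/-- `d ≤ χ(U·V)` -/
theorem dominating_le (U : Ultrafilter ℕ) (V : ℕ → Ultrafilter ℕ) (hU : Nonprincipal U)
    (hV : ∀ n, Nonprincipal (V n)) :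
    ∃ F : Set (ℕ → ℕ), Cardinal.mk F ≤ character (usum U V) ∧ ∀ f : ℕ → ℕ, ∃ g ∈ F, ∀ n, f n ≤ g n := by
  classical
  obtain ⟨D, hD, hD2⟩ := exists_indexed_base (usum U V)
  have hAi : ∀ i, ∀ n, ∃ k, n ≤ k ∧ ∃ m, Nat.pair k m ∈ D i := by
    intro i n
    have h1 : {n | {m | Nat.pair n m ∈ D i} ∈ V n} ∈ U := mem_usum.1 (hD i)
    obtain ⟨k, hk, hnk⟩ := (infinite_of_mem hU h1).exists_gt n
    obtain ⟨m, hm⟩ := (infinite_of_mem (hV k) hk).nonempty
    exact ⟨k, hnk.le, m, hm⟩
  choose k hk m hm using hAi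
  refine ⟨Set.range m, ?_, fun f => ?_⟩
  · calc _ ≤ Cardinal.mk (character (usum U V)).out := Cardinal.mk_range_le
      _ = _ := Cardinal.mk_out _
  · let B : Set ℕ := {p | ∃ n m, p = Nat.pair n m ∧ ∀ j ≤ n, f j ≤ m}
    have hB : B ∈ usum U V := by
      rw [mem_usum]
      refine Filter.mem_of_superset Filter.univ_mem (fun n _ => ?_)
      have h1 : {m | ∀ j ≤ n, f j ≤ m} ∈ V n := by
        by_contra hno
        rw [← Ultrafilter.compl_mem_iff_notMem] at hno
        apply infinite_of_mem (hV n) hno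
        apply (Set.finite_Iic ((Finset.range (n + 1)).sup f)).subset
        intro m hm
        simp only [Set.mem_compl_iff, Set.mem_ofPred_eq, not_forall, not_le] at hm
        obtain ⟨j, hj, hjm⟩ := hm
        exact hjm.le.trans (Finset.le_sup (f := f) (Finset.mem_range.2 (by omega)))
      refine Filter.mem_of_superset h1 (fun m hm => ?_)
      exact ⟨n, m, rfl, hm⟩
    obtain ⟨i, hi⟩ := hD2 B hB
    refine ⟨m i, ⟨i, rfl⟩, fun n => ?_⟩
    obtain ⟨n', m', heq, hall⟩ := hi (hm i n)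
    rw [Nat.pair_eq_pair] at heq
    obtain ⟨h1, h2⟩ := heq
    rw [h2]
    exact hall n (by rw [← h1]; exact hk i n)

/-- `cof ([κ]^ω) ≤ χ(U·U)` if `U` has a top family indexed by `ι` -/
theorem cofinal_le (U : Ultrafilter ℕ) (hU : Nonprincipal U) {ι : Type} (A : ι → Set ℕ)
    (hA : ∀ i, A i ∈ U) (hfin : ∀ B ∈ U, {i | B ⊆ A i}.Finite) :
    ∃ F : Set (Set ι), Cardinal.mk F ≤ character (usum U (fun _ => U)) ∧ (∀ Y ∈ F, Y.Countable) ∧
      ∀ X : Set ι, X.Countable → ∃ Y ∈ F, X ⊆ Y := by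
  classical
  obtain ⟨D, hD, hD2⟩ := exists_indexed_base (usum U (fun _ => U))
  let Y : (character (usum U (fun _ => U))).out → Set ι := fun i =>
    ⋃ n : {n | {m | Nat.pair n m ∈ D i} ∈ U}, {a | {m | Nat.pair n m ∈ D i} ⊆ A a}
  refine ⟨Set.range Y, ?_, ?_, ?_⟩
  · calc _ ≤ Cardinal.mk (character (usum U (fun _ => U))).out := Cardinal.mk_range_le
      _ = _ := Cardinal.mk_out _
  · rintro _ ⟨i, rfl⟩
    apply Set.countable_iUnion
    intro n
    exact (hfin _ n.2).countable
  · intro X hX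
    rcases X.eq_empty_or_nonempty with rfl | hne
    · obtain ⟨i, _⟩ := hD2 Set.univ Filter.univ_mem
      exact ⟨Y i, ⟨i, rfl⟩, Set.empty_subset _⟩
    obtain ⟨x, hx⟩ := hX.exists_eq_range hne
    let B : Set ℕ := {p | ∃ n m, p = Nat.pair n m ∧ ∀ j ≤ n, m ∈ A (x j)}
    have hB : B ∈ usum U (fun _ => U) := by
      rw [mem_usum]
      refine Filter.mem_of_superset Filter.univ_mem (fun n _ => ?_)
      have h1 : (⋂ j ∈ Finset.range (n + 1), A (x j)) ∈ U :=
        (Filter.biInter_finset_mem _).2 (fun j _ => hA _)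
      refine Filter.mem_of_superset h1 (fun m hm => ?_)
      exact ⟨n, m, rfl, fun j hj => Set.mem_iInter₂.1 hm j (Finset.mem_range.2 (by omega))⟩
    obtain ⟨i, hi⟩ := hD2 B hB
    refine ⟨Y i, ⟨i, rfl⟩, ?_⟩
    rw [hx]
    rintro _ ⟨j, rfl⟩
    have h1 : {n | {m | Nat.pair n m ∈ D i} ∈ U} ∈ U := mem_usum.1 (hD i)
    obtain ⟨n, hn, hjn⟩ := (infinite_of_mem hU h1).exists_gt j
    refine Set.mem_iUnion.2 ⟨⟨n, hn⟩, ?_⟩
    intro m hm
    obtain ⟨n', m', heq, hall⟩ := hi hm
    rw [Nat.pair_eq_pair] at heq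
    obtain ⟨h2, h3⟩ := heq
    have := hall j (by rw [← h2]; exact hjn.le)
    rwa [← h3] at this

end Pool.Agent.helper43.Tukey
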