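import Pool.Agent.helper43.Tukey.Top

namespace Pool.Agent.helper43.Tukey

open Cardinal Set

/-- the `U`-sum of the ultrafilters `V n` -/
noncomputable def usum (U : Ultrafilter ℕ) (V : ℕ → Ultrafilter ℕ) : Ultrafilter ℕ :=
  U.bind (fun n => (V n).map (fun m => Nat.pair n m))

lemma mem_usum {U : Ultrafilter ℕ} {V : ℕ → Ultrafilter ℕ} {s : Set ℕ} :
    s ∈ usum U V ↔ {n | {m | Nat.pair n m ∈ s} ∈ V n} ∈ U := by
  rfl

lemma usum_nonprincipal {U : Ultrafilter ℕ} {V : ℕ → Ultrafilter ℕ}
    (hV : ∀ n, Nonprincipal (V n)) : Nonprincipal (usum U V) := by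
  intro k hk
  have h1 : ({k} : Set ℕ) ∈ usum U V := by
    rw [hk]; exact Ultrafilter.mem_pure.2 rfl
  rw [mem_usum] at h1
  have h2 : {n | {m | Nat.pair n m ∈ ({k} : Set ℕ)} ∈ V n} = ∅ := by
    ext n
    simp only [Set.mem_ofPred_eq, Set.mem_empty_iff_false, iff_false]
    intro h
    apply infinite_of_mem (hV n) h
    apply (Set.finite_singleton (Nat.unpair k).2).subset
    intro m hm
    simp only [Set.mem_ofPred_eq, Set.mem_singleton_iff] at hm
    rw [Set.mem_singleton_iff, ← hm]
    simp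
  rw [h2] at h1
  exact Ultrafilter.empty_notMem h1

/-- choosing an injective sequence in a decreasing sequence of infinite sets -/
lemma exists_inj_seq {J : Type} (S : ℕ → Set J) (hS : Antitone S) (hinf : ∀ n, (S n).Infinite) :
    ∃ x : ℕ → J, Function.Injective x ∧ ∀ n, x n ∈ S n := by
  classical
  obtain ⟨f, hf1, hf2⟩ := exists_seq_of_forall_finset_exists
    (P := fun p : ℕ × J => p.2 ∈ S p.1) (r := fun p q => p.1 < q.1 ∧ p.2 ≠ q.2) (by
      intro s _
      obtain ⟨j, hj, hjs⟩ := (hinf (s.sup Prod.fst + 1)).exists_notMem_finset (s.image Prod.snd)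
      refine ⟨(s.sup Prod.fst + 1, j), hj, fun p hp => ⟨?_, ?_⟩⟩
      · exact Nat.lt_succ_of_le (Finset.le_sup (f := Prod.fst) hp)
      · rintro rfl
        exact hjs (Finset.mem_image_of_mem _ hp))
  have hmono : StrictMono (fun n => (f n).1) := fun m n hmn => (hf2 m n hmn).1
  refine ⟨fun n => (f n).2, ?_, fun n => ?_⟩
  · intro m n hmn
    rcases lt_trichotomy m n with h | h | h
    · exact absurd hmn (hf2 m n h).2
    · exact h
    · exact absurd hmn.symm (hf2 n m h).2
  · exact hS (hmono.id_le n) (hf1 n)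

/-- The pigeonhole lemma. -/
lemma pigeonhole {κ : Cardinal.{0}} (hκ : ℵ₀ ≤ κ) {J K₀ : Type} {K : ℕ → Type}
    (hJ : κ < Cardinal.mk J) (h0 : Cardinal.mk K₀ ≤ κ) (hK : ∀ n, Cardinal.mk (K n) ≤ κ)
    (u : J → K₀) (v : ∀ n, J → K n) :
    ∃ (j : J) (x : ℕ → J), Function.Injective x ∧ (∀ k, u (x k) = u j) ∧
      ∀ n k, n < k → v n (x k) = v n j := by
  classical
  let c : ∀ n, J → K₀ × (∀ i : Fin n, K i) := fun n j => (u j, fun i => v i j)
  have hT : ∀ n, Cardinal.mk (K₀ × (∀ i : Fin n, K i)) ≤ κ := by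
    intro n
    rw [Cardinal.mk_prod, Cardinal.lift_id, Cardinal.lift_id]
    have h1 : Cardinal.mk (∀ i : Fin n, K i) ≤ κ := by
      rw [Cardinal.mk_pi]
      calc Cardinal.prod (fun i : Fin n => Cardinal.mk (K i))
          ≤ Cardinal.prod (fun _ : Fin n => κ) := Cardinal.prod_le_prod _ _ (fun i => hK i)
        _ = κ ^ (Cardinal.mk (Fin n)) := by rw [Cardinal.prod_const']
        _ = κ ^ (n : Cardinal) := by simp
        _ ≤ κ := by
            rw [Cardinal.power_natCast]
            exact Cardinal.power_nat_le hκ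
    calc _ ≤ κ * κ := mul_le_mul' h0 h1
      _ = κ := Cardinal.mul_eq_self hκ
  let Bad : Set J := ⋃ p : (Σ n : ℕ, K₀ × (∀ i : Fin n, K i)),
    {j | c p.1 j = p.2 ∧ Cardinal.mk {i | c p.1 i = p.2} ≤ κ}
  have hBad : Cardinal.mk Bad ≤ κ := by
    refine (Cardinal.mk_iUnion_le _).trans ?_
    have h1 : Cardinal.mk (Σ n : ℕ, K₀ × (∀ i : Fin n, K i)) ≤ κ := by
      rw [Cardinal.mk_sigma]
      calc Cardinal.sum (fun n : ℕ => Cardinal.mk (K₀ × (∀ i : Fin n, K i)))
          ≤ Cardinal.sum (fun _ : ℕ => κ) := Cardinal.sum_le_sum _ _ hT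
        _ = ℵ₀ * κ := by simp
        _ ≤ κ * κ := mul_le_mul' hκ le_rfl
        _ = κ := Cardinal.mul_eq_self hκ
    have h2 : (⨆ p : (Σ n : ℕ, K₀ × (∀ i : Fin n, K i)),
        Cardinal.mk {j | c p.1 j = p.2 ∧ Cardinal.mk {i | c p.1 i = p.2} ≤ κ}) ≤ κ := by
      apply ciSup_le'
      intro p
      by_cases hp : Cardinal.mk {i | c p.1 i = p.2} ≤ κ
      · refine le_trans (Cardinal.mk_le_mk_of_subset ?_) hp
        intro j hj
        exact hj.1
      · have : {j | c p.1 j = p.2 ∧ Cardinal.mk {i | c p.1 i = p.2} ≤ κ} = ∅ := by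
          ext j; simp only [Set.mem_ofPred_eq, Set.mem_empty_iff_false, iff_false]
          exact fun h => hp h.2
        rw [this]; simp
    calc _ ≤ κ * κ := mul_le_mul' h1 h2
      _ = κ := Cardinal.mul_eq_self hκ
  obtain ⟨j, hj⟩ : ∃ j, j ∉ Bad := by
    by_contra hcon
    push Not at hcon
    have : Bad = Set.univ := Set.eq_univ_of_forall hcon
    rw [this, Cardinal.mk_univ] at hBad
    exact absurd hBad (not_le.2 hJ)
  have hfib : ∀ n, ({i | c n i = c n j} : Set J).Infinite := by
    intro n hfin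
    apply hj
    refine Set.mem_iUnion.2 ⟨⟨n, c n j⟩, rfl, ?_⟩
    exact (Cardinal.lt_aleph0_iff_set_finite.2 hfin).le.trans hκ
  have hanti : Antitone (fun n => ({i | c n i = c n j} : Set J)) := by
    intro m n hmn i hi
    have hi' : c n i = c n j := hi
    have h1 : u i = u j := congrArg Prod.fst hi'
    have h2 : (fun k : Fin n => v k i) = fun k : Fin n => v k j := congrArg Prod.snd hi'
    show (u i, fun k : Fin m => v k i) = (u j, fun k : Fin m => v k j)
    rw [h1]
    congr 1
    funext k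
    exact congrFun h2 ⟨k.1, k.2.trans_le hmn⟩
  obtain ⟨x, hx, hxS⟩ := exists_inj_seq _ hanti hfib
  refine ⟨j, x, hx, fun k => ?_, fun n k hnk => ?_⟩
  · have hi' : c k (x k) = c k j := hxS k
    exact congrArg Prod.fst hi'
  · have hi' : c k (x k) = c k j := hxS k
    have h2 : (fun i : Fin k => v i (x k)) = fun i : Fin k => v i j := congrArg Prod.snd hi'
    exact congrFun h2 ⟨n, hnk⟩

/-- KEY LEMMA: sums do not increase the character. -/
theorem character_usum_le (hyp : EveryFinsetType) {κ : Cardinal.{0}} (hκ : ℵ₀ ≤ κ)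
    {U : Ultrafilter ℕ} {V : ℕ → Ultrafilter ℕ} (hV : ∀ n, Nonprincipal (V n))
    (hUκ : character U ≤ κ) (hVκ : ∀ n, character (V n) ≤ κ) :
    character (usum U V) ≤ κ := by
  by_contra hcon
  push Not at hcon
  have hW := usum_nonprincipal (U := U) hV
  obtain ⟨A, hA, hfin⟩ := top_family_of_le hyp hW (J := (character (usum U V)).out)
    (by rw [Cardinal.mk_out])
  obtain ⟨DU, hDU, hDU2⟩ := exists_indexed_base U
  choose DV hDV hDV2 using fun n => exists_indexed_base (V n)
  have hu : ∀ j, ∃ i, DU i ⊆ {n | {m | Nat.pair n m ∈ A j} ∈ V n} :=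
    fun j => hDU2 _ (mem_usum.1 (hA j))
  choose u hu using hu
  have hv : ∀ n j, ∃ i, n ∈ DU (u j) → DV n i ⊆ {m | Nat.pair n m ∈ A j} := by
    intro n j
    by_cases hn : n ∈ DU (u j)
    · obtain ⟨i, hi⟩ := hDV2 n _ (hu j hn)
      exact ⟨i, fun _ => hi⟩
    · obtain ⟨i, _⟩ := hDV2 n _ Filter.univ_mem
      exact ⟨i, fun h => absurd h hn⟩
  choose v hv using hv
  obtain ⟨j, x, hx, hxu, hxv⟩ := pigeonhole hκ
    (J := (character (usum U V)).out) (K₀ := (character U).out)
    (K := fun n => (character (V n)).out) (by rwa [Cardinal.mk_out])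
    (by rwa [Cardinal.mk_out]) (fun n => by rw [Cardinal.mk_out]; exact hVκ n) u v
  let B : Set ℕ := {p | ∃ n m, p = Nat.pair n m ∧ n ∈ DU (u j) ∧ ∀ k, m ∈ DV n (v n (x k))}
  have hB : B ∈ usum U V := by
    rw [mem_usum]
    refine Filter.mem_of_superset (hDU (u j)) (fun n hn => ?_)
    have h1 : (⋂ k ∈ Finset.range (n + 1), DV n (v n (x k))) ∩ DV n (v n j) ∈ V n := by
      refine Filter.inter_mem ?_ (hDV n _)
      exact (Filter.biInter_finset_mem _).2 (fun k _ => hDV n _)
    refine Filter.mem_of_superset h1 ?_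
    rintro m ⟨hm1, hm2⟩
    refine ⟨n, m, rfl, hn, fun k => ?_⟩
    by_cases hk : k < n + 1
    · have := Set.mem_iInter₂.1 hm1 k (Finset.mem_range.2 hk)
      exact this
    · rw [hxv n k (by omega)]
      exact hm2
  apply (Set.infinite_range_of_injective hx).mono _ (hfin B hB)
  rintro _ ⟨k, rfl⟩
  rintro p ⟨n, m, rfl, hp1, hp2⟩
  have h1 : n ∈ DU (u (x k)) := by rw [hxu]; exact hp1
  exact hv _ _ h1 (hp2 k)

/-- diagonalisation: the sum of ultrafilters of strictly increasing characters has a character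
bigger than the sum of the characters. -/
theorem sum_lt_character_usum {U : Ultrafilter ℕ} {V : ℕ → Ultrafilter ℕ}
    (hU : Nonprincipal U) (hV : ∀ n, Nonprincipal (V n))
    (hmono : StrictMono (fun n => character (V n))) :
    Cardinal.sum (fun n => character (V n)) < character (usum U V) := by
  classical
  by_contra hcon
  push Not at hcon
  obtain ⟨D, hD, hD2⟩ := exists_indexed_base (usum U V)
  obtain ⟨e⟩ : Nonempty ((character (usum U V)).out ↪ Σ n : ℕ, (character (V n)).out) := by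
    rw [← Cardinal.le_def, Cardinal.mk_out, Cardinal.mk_sigma]
    simpa using hcon
  have hcard : ∀ n, Cardinal.mk {i | (e i).1 ≤ n} < character (V (n + 1)) := by
    intro n
    have h1 : Cardinal.mk {i | (e i).1 ≤ n} ≤
        Cardinal.mk (Σ k : Fin (n + 1), (character (V k)).out) := by
      refine Cardinal.mk_le_of_injective (f := fun i =>
        (⟨⟨(e i.1).1, Nat.lt_succ_of_le i.2⟩, (e i.1).2⟩ :
          Σ k : Fin (n + 1), (character (V k)).out)) ?_
      intro a b hab
      apply Subtype.ext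
      apply e.injective
      have h3 := congrArg (fun q : (Σ k : Fin (n + 1), (character (V k)).out) =>
        (⟨q.1.1, q.2⟩ : Σ k : ℕ, (character (V k)).out)) hab
      simpa using h3
    have h2 : Cardinal.mk (Σ k : Fin (n + 1), (character (V k)).out) ≤ character (V n) := by
      rw [Cardinal.mk_sigma]
      calc Cardinal.sum (fun k : Fin (n + 1) => Cardinal.mk (character (V k)).out)
          ≤ Cardinal.sum (fun _ : Fin (n + 1) => character (V n)) := by
            apply Cardinal.sum_le_sum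
            intro k
            rw [Cardinal.mk_out]
            exact hmono.monotone (Nat.lt_succ_iff.1 k.2)
        _ = ((n + 1 : ℕ) : Cardinal) * character (V n) := by simp
        _ ≤ character (V n) * character (V n) :=
            mul_le_mul' ((Cardinal.natCast_lt_aleph0).le.trans (aleph0_le_character (hV n))) le_rfl
        _ = character (V n) := Cardinal.mul_eq_self (aleph0_le_character (hV n))
    exact (h1.trans h2).trans_lt (hmono (Nat.lt_succ_self n))
  have hT : ∀ n, ∃ T ∈ V (n + 1), ∀ i, (e i).1 ≤ n → {m | Nat.pair (n + 1) m ∈ D i} ∈ V (n + 1) →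
      ¬ {m | Nat.pair (n + 1) m ∈ D i} ⊆ T := by
    intro n
    by_contra hno
    push Not at hno
    apply absurd (hcard n) (not_lt.2 _)
    apply character_le_of_family (fun i : {i | (e i).1 ≤ n} => {m | Nat.pair (n + 1) m ∈ D i.1})
    intro s hs
    obtain ⟨i, h1, h2, h3⟩ := hno s hs
    exact ⟨⟨i, h1⟩, h2, h3⟩
  choose T hTV hT using hT
  let B : Set ℕ := {p | ∀ n, p.unpair.1 = n + 1 → p.unpair.2 ∈ T n}
  have hB : B ∈ usum U V := by
    rw [mem_usum]
    refine Filter.mem_of_superset Filter.univ_mem (fun n _ => ?_)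
    rcases n with _ | n
    · refine Filter.mem_of_superset Filter.univ_mem (fun m _ => ?_)
      intro k hk
      simp at hk
    · refine Filter.mem_of_superset (hTV n) (fun m hm => ?_)
      intro k hk
      simp only [Nat.unpair_pair, Nat.add_right_cancel_iff] at hk ⊢
      rw [← hk]; exact hm
  obtain ⟨i, hi⟩ := hD2 B hB
  have h1 : {n | {m | Nat.pair n m ∈ D i} ∈ V n} ∈ U := mem_usum.1 (hD i)
  apply infinite_of_mem hU h1
  apply (Set.finite_Iic (e i).1).subset
  intro n hn
  by_contra hni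
  rw [Set.mem_Iic, not_le] at hni
  obtain ⟨k, rfl⟩ : ∃ k, n = k + 1 := ⟨n - 1, by omega⟩
  apply hT k i (by omega) hn
  intro m hm
  have := hi hm k (by simp)
  simpa using this

end Pool.Agent.helper43.Tukey
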